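import Pool.Agent.H78.CUR.Stmts

set_option linter.unusedVariables false

namespace CUR

open SW

theorem dz_pos (n : ℕ) : (0 : ℝ) < 1 / ((n : ℝ) + 1) := by positivity

theorem cur_dz : DZStmt := by
  refine ⟨?_, ?_, ?_, ?_⟩
  · rintro (_ | ⟨n, θ⟩) (_ | ⟨m, η⟩)
    · simp [dZ]
    · simp only [dZ]; exact (dz_pos m).le
    · simp only [dZ]; exact (dz_pos n).le
    · simp only [dZ]
      split_ifs
      · exact le_min (norm_nonneg _) (dz_pos n).le
      · exact le_max_of_le_left (dz_pos n).le
  · rintro (_ | ⟨n, θ⟩) (_ | ⟨m, η⟩)
    · simp [dZ]
    · simp only [dZ]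
      exact ⟨fun h => absurd h (dz_pos m).ne', fun h => by simp at h⟩
    · simp only [dZ]
      exact ⟨fun h => absurd h (dz_pos n).ne', fun h => by simp at h⟩
    · simp only [dZ]
      split_ifs with h
      · subst h
        constructor
        · intro h
          have : ‖θ - η‖ = 0 := by
            rcases min_choice ‖θ - η‖ (1 / ((n : ℝ) + 1)) with h' | h'
            · rw [h'] at h; exact h
            · rw [h'] at h
              exact absurd h (dz_pos n).ne'
          rw [norm_eq_zero, sub_eq_zero] at this
          rw [this]
        · intro h
          simp only [Option.some.injEq, Prod.mk.injEq, true_and] at h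
          subst h
          simp only [sub_self, norm_zero]
          exact min_eq_left (dz_pos n).le
      · constructor
        · intro h'
          have := le_max_left (1 / ((n : ℝ) + 1)) (1 / ((m : ℝ) + 1))
          have h2 := dz_pos n
          rw [h'] at this
          linarith
        · intro h'
          simp only [Option.some.injEq, Prod.mk.injEq] at h'
          exact absurd h'.1 h
  · rintro (_ | ⟨n, θ⟩) (_ | ⟨m, η⟩)
    · rfl
    · rfl
    · rfl
    · simp only [dZ]
      by_cases h : n = m
      · subst h
        simp only [if_true]
        rw [norm_sub_rev]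
      · rw [if_neg h, if_neg (Ne.symm h), max_comm]
  · rintro (_ | ⟨n, θ⟩) (_ | ⟨m, η⟩) (_ | ⟨k, ζ⟩)
    · simp [dZ]
    · simp [dZ]
    · have h1 := dz_pos m
      simp only [dZ]
      linarith
    · have h1 := dz_pos m
      have h2 := dz_pos k
      have h3 := norm_nonneg (η - ζ)
      simp only [dZ]
      split_ifs with h
      · subst h
        have := le_min h3 h1.le
        linarith
      · have := le_max_right (1 / ((m : ℝ) + 1)) (1 / ((k : ℝ) + 1))
        linarith
    · simp [dZ]
    · have h1 := dz_pos n
      have h2 := dz_pos k
      simp only [dZ]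
      split_ifs with h
      · subst h
        have := min_le_right ‖θ - ζ‖ (1 / ((n : ℝ) + 1))
        linarith
      · exact max_le (by linarith) (by linarith)
    · have h1 := dz_pos n
      have h2 := dz_pos m
      have h3 := norm_nonneg (θ - η)
      simp only [dZ]
      split_ifs with h
      · subst h
        have := le_min h3 h1.le
        linarith
      · have := le_max_left (1 / ((n : ℝ) + 1)) (1 / ((m : ℝ) + 1))
        linarith
    · have h1 := dz_pos n
      have h2 := dz_pos m
      have h3 := dz_pos k
      have h4 := norm_nonneg (θ - η)
      have h5 := norm_nonneg (η - ζ)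
      have h6 := norm_nonneg (θ - ζ)
      have h7 : ‖θ - ζ‖ ≤ ‖θ - η‖ + ‖η - ζ‖ := norm_sub_le_norm_sub_add_norm_sub θ η ζ
      simp only [dZ]
      by_cases hnm : n = m
      · subst hnm
        by_cases hnk : n = k
        · subst hnk
          simp only [if_true]
          simp only [min_def]
          split_ifs <;> linarith
        · simp only [if_true, if_neg hnk]
          have := le_min h4 h1.le
          linarith
      · by_cases hmk : m = k
        · subst hmk
          simp only [if_true, if_neg hnm]
          have := le_min h5 h2.le
          linarith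
        · rw [if_neg hnm, if_neg hmk]
          by_cases hnk : n = k
          · rw [if_pos hnk]
            have a1 := min_le_right ‖θ - ζ‖ (1 / ((n : ℝ) + 1))
            have a2 := le_max_left (1 / ((n : ℝ) + 1)) (1 / ((m : ℝ) + 1))
            have a3 := le_max_left (1 / ((m : ℝ) + 1)) (1 / ((k : ℝ) + 1))
            linarith
          · rw [if_neg hnk]
            have a1 := le_max_left (1 / ((n : ℝ) + 1)) (1 / ((m : ℝ) + 1))
            have a2 := le_max_right (1 / ((n : ℝ) + 1)) (1 / ((m : ℝ) + 1))
            have a3 := le_max_left (1 / ((m : ℝ) + 1)) (1 / ((k : ℝ) + 1))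
            have a4 := le_max_right (1 / ((m : ℝ) + 1)) (1 / ((k : ℝ) + 1))
            exact max_le (by linarith) (by linarith)

end CUR
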