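import Pool.Agent.H78.CUR.Stmts

set_option linter.unusedVariables false
set_option synthInstance.maxSize 100000

namespace CUR

open SW

section

variable {N : Type} [SetStr N] [ZF N] {c : Codes N} {D : DataN c} {Y d τ : N}

theorem sp2_top (hS : Space D Y d τ) : IsTop Y τ := by
  refine ⟨?_, ?_, ?_, ?_⟩
  · intro U hU x hx
    exact ((hS.memτ U).1 hU).1 x hx
  · intro U hU
    rw [hS.memτ]
    refine ⟨fun z hz => (hU z).1 hz, ?_⟩
    intro z y _ _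
    refine ⟨1, one_pos, ?_⟩
    intro z' y' h _
    exact (hU z').2 ((hS.memY z').2 ⟨y', h⟩)
  · intro U V W hU hV hW
    obtain ⟨hU1, hU2⟩ := (hS.memτ U).1 hU
    obtain ⟨hV1, hV2⟩ := (hS.memτ V).1 hV
    rw [hS.memτ]
    refine ⟨fun z hz => hU1 z ((hW z).1 hz).1, ?_⟩
    intro z y hz hy
    obtain ⟨e1, he1, h1⟩ := hU2 z y ((hW z).1 hz).1 hy
    obtain ⟨e2, he2, h2⟩ := hV2 z y ((hW z).1 hz).2 hy
    refine ⟨min e1 e2, lt_min he1 he2, ?_⟩
    intro z' y' h hd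
    exact (hW z').2 ⟨h1 z' y' h (hd.trans_le (min_le_left _ _)),
      h2 z' y' h (hd.trans_le (min_le_right _ _))⟩
  · intro C W hC hW
    rw [hS.memτ]
    refine ⟨?_, ?_⟩
    · intro z hz
      obtain ⟨U, hU, hzU⟩ := (hW z).1 hz
      exact ((hS.memτ U).1 (hC U hU)).1 z hzU
    · intro z y hz hy
      obtain ⟨U, hU, hzU⟩ := (hW z).1 hz
      obtain ⟨e, he, h⟩ := ((hS.memτ U).1 (hC U hU)).2 z y hzU hy
      exact ⟨e, he, fun z' y' h1 h2 => (hW z').2 ⟨U, hU, h z' y' h1 h2⟩⟩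

theorem sp2_metr (hNU : NUStmt) (hR1 : R1Stmt) (hR2 : R2Stmt) (hDZ : DZStmt)
    (hSP0 : SP0Stmt) (L : Line c) (hS : Space D Y d τ) : Metrizable Y τ := by
  classical
  have r1 := hR1 N c
  have r2 := hR2 N c
  obtain ⟨u1, u2⟩ := hSP0 hNU N c D
  obtain ⟨dz0, dz1, dz2, dz3⟩ := hDZ
  letI := L.fld
  letI := L.lo
  haveI := L.sor
  have hφ0 : L.φ 0 = 0 := by
    have := L.φadd 0 0
    rw [add_zero] at this
    linarith
  have hφinj : ∀ a b, L.φ a = L.φ b → a = b := by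
    intro a b h
    rcases lt_trichotomy a b with h' | h' | h'
    · have := (L.φlt a b).1 h'
      rw [h] at this
      exact absurd this (lt_irrefl _)
    · exact h'
    · have := (L.φlt b a).1 h'
      rw [h] at this
      exact absurd this (lt_irrefl _)
  have hφle : ∀ a b, L.φ a ≤ L.φ b → a ≤ b := by
    intro a b h
    by_contra hc
    have := (L.φlt b a).1 (not_le.1 hc)
    linarith
  have hcrd : ∀ z : {x : N // E x Y}, ∃ y, Pt D z.1 y := fun z => (hS.memY z.1).1 z.2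
  choose crd hcrd using hcrd
  have hδ : ∀ z z' : {x : N // E x Y}, ∃ w : {x : N // E x (KS c)},
      IsCutOf w.1 (dZ (crd z) (crd z')) := by
    intro z z'
    obtain ⟨w, hw⟩ := hS.dist z.1 z'.1 _ _ (hcrd z) (hcrd z')
    exact ⟨⟨w, (r1.memK w).2 ⟨_, hw⟩⟩, hw⟩
  choose δ hδ using hδ
  have hφδ : ∀ z z', L.φ (δ z z') = dZ (crd z) (crd z') := fun z z' =>
    r1.uniqr _ _ _ (L.cut (δ z z')) (hδ z z')
  refine ⟨KS c, L.ad, L.mu, L.lt, d, L.fld, L.lo, L.sor, L.had, L.hmu, L.hlt, L.lub, δ,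
    ?_, ?_, ?_, ?_, ?_⟩
  · intro x y r
    rw [hS.memd]
    constructor
    · rintro ⟨a, b, ha, hb, hr⟩
      have ea := u1 _ _ _ ha (hcrd x)
      have eb := u1 _ _ _ hb (hcrd y)
      subst ea
      subst eb
      exact Subtype.ext (r1.uniq _ _ _ (hδ x y) hr)
    · rintro rfl
      exact ⟨_, _, hcrd x, hcrd y, hδ x y⟩
  · intro x y
    constructor
    · intro h
      have h1 := hφδ x y
      rw [h] at h1
      have h2 : dZ (crd x) (crd y) = 0 := h1.symm.trans hφ0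
      have h3 := (dz1 _ _).1 h2
      exact Subtype.ext (u2 _ _ (crd x) (hcrd x) (h3 ▸ hcrd y))
    · rintro rfl
      apply hφinj
      rw [hφδ, (dz1 _ _).2 rfl]
      exact hφ0.symm
  · intro x y
    apply hφinj
    rw [hφδ, hφδ, dz2]
  · intro x y z
    apply hφle
    rw [L.φadd, hφδ, hφδ, hφδ]
    exact dz3 _ _ _
  · intro U
    rw [hS.memτ]
    constructor
    · rintro ⟨h1, h2⟩
      refine ⟨h1, ?_⟩
      intro x hx
      obtain ⟨e, he, h⟩ := h2 x.1 _ hx (hcrd x)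
      obtain ⟨k, hk⟩ := exists_nat_one_div_lt he
      have hcut := r2.hc.2 k
      set w : {x : N // E x (KS c)} := ⟨_, (r1.memK _).2 ⟨_, hcut⟩⟩ with hw
      have hφw : L.φ w = 1 / ((k : ℝ) + 1) := r1.uniqr _ _ _ (L.cut w) hcut
      refine ⟨w, ?_, ?_⟩
      · rw [L.φlt, hφw]
        rw [hφ0]
        positivity
      · intro y hy
        rw [L.φlt, hφδ, hφw] at hy
        exact h y.1 _ (hcrd y) (hy.trans hk)
    · rintro ⟨h1, h2⟩
      refine ⟨h1, ?_⟩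
      intro z y hz hy
      obtain ⟨e, he, h⟩ := h2 ⟨z, h1 z hz⟩ hz
      have hy' : y = crd ⟨z, h1 z hz⟩ := u1 _ _ _ hy (hcrd ⟨z, h1 z hz⟩)
      rw [L.φlt] at he
      refine ⟨L.φ e, hφ0 ▸ he, ?_⟩
      intro z' y' hz' hd
      have hz'Y : E z' Y := (hS.memY z').2 ⟨y', hz'⟩
      have hy'' : y' = crd ⟨z', hz'Y⟩ := u1 _ _ _ hz' (hcrd ⟨z', hz'Y⟩)
      refine h ⟨z', hz'Y⟩ ?_
      rw [L.φlt, hφδ, ← hy', ← hy'']
      exact hd

end

theorem cur_sp2 (hNU : NUStmt) (hR1 : R1Stmt) (hR2 : R2Stmt) (hR4 : R4Stmt) (hDZ : DZStmt)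
    (hSP0 : SP0Stmt) : SP2Stmt := by
  intro N _ _ c D Y d τ hS
  obtain ⟨L⟩ := hR4 N c
  exact ⟨sp2_top hS, sp2_metr hNU hR1 hR2 hDZ hSP0 L hS⟩

end CUR
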